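import Pool.Agent.Q215.Cone.Vag

open MeasureTheory Filter Topology
open Pool.Agent.Q215.Cone

namespace Pool.Agent.Results.MP_da621d_pr.VagueLimit

/-- The measures `μ_d(A) = 2^d d P[α_d ∈ A]` on `(0,∞)` converge vaguely to a nonzero locally
finite measure. The first part records that the solid angle is a genuine random variable on a
probability space. -/
theorem result :
    (∀ d : ℕ, 0 < d → IsProbabilityMeasure (law d) ∧
      AEMeasurable (fun U : Fin d → EuclideanSpace ℝ (Fin d) => angle (pos U)) (law d)) ∧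
    ∃ μ : Measure (Set.Ioi (0 : ℝ)), IsLocallyFiniteMeasure μ ∧ μ ≠ 0 ∧
      ∀ f : Set.Ioi (0 : ℝ) → ℝ, Continuous f → HasCompactSupport f →
        Tendsto (fun d : ℕ => ∫ x, f x ∂(mu d)) atTop (𝓝 (∫ x, f x ∂μ)) := by
  refine ⟨fun d hd => ?_, muLim, muLim_locallyFinite, muLim_ne_zero,
    fun f hf hs => muLim_spec hf hs⟩
  have := (unif hd).prob
  refine ⟨by unfold law; infer_instance, ?_⟩
  exact ⟨al (sigma d), measurable_al, angle_eq hd⟩

end Pool.Agent.Results.MP_da621d_pr.VagueLimit
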